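import Pool.Agent.SZG.StmtsY

/-!
SZG2, row XPR: periods of the points.
-/

namespace Pool.Agent.SZG.H92

open scoped BigOperators
open Pool.Agent.THS Pool.Agent.SZG

variable {g : ℕ}

theorem exp_int (m : ℤ) : Complex.exp (2 * Real.pi * Complex.I * (m : ℂ)) = 1 := by
  rw [Complex.exp_eq_one_iff]
  exact ⟨m, by ring⟩

/-- the quasi-periodicity of the vectors `Vab` -/
theorem vab_per (h1 : TpeStatement) {τ : Matrix (Fin g) (Fin g) ℂ} (hτ : Siegel τ)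
    (w : Fin g → ℂ) (P Q : Fin g → ℤ) : ∃ E : ℂ, E ≠ 0 ∧ ∀ a b : Fin g → ZMod 2,
      Vab τ a b (fun i => w i + ((P i : ℂ) + ∑ j, τ i j * (Q j : ℂ))) = E * Vab τ a b w := by
  refine ⟨Complex.exp (-(Real.pi * Complex.I * ∑ i, ∑ j, (((2 * Q i : ℤ) : ℂ)) * τ i j *
      (((2 * Q j : ℤ) : ℂ))) - 2 * Real.pi * Complex.I * ∑ i, (((2 * Q i : ℤ) : ℂ)) * (2 * w i)),
    Complex.exp_ne_zero _, fun a b => ?_⟩
  have e1 : (fun i => 2 * (w i + ((P i : ℂ) + ∑ j, τ i j * (Q j : ℂ))) + ((hv b i : ℝ) : ℂ)) =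
      fun i => (fun i => (2 * w i + ((hv b i : ℝ) : ℂ)) + (((2 * P i : ℤ) : ℂ))) i +
        ∑ j, τ i j * (((2 * Q j : ℤ) : ℂ)) := by
    funext i
    have e2 : ∑ j, τ i j * (((2 * Q j : ℤ) : ℂ)) = 2 * ∑ j, τ i j * (Q j : ℂ) := by
      rw [Finset.mul_sum]
      refine Finset.sum_congr rfl fun j _ => ?_
      push_cast
      ring
    rw [e2]
    push_cast
    ring
  unfold Vab
  rw [e1, (h1 g τ hτ.1 (hv a) _ (fun j => 2 * Q j)).2.2.1]
  have e3 := (h1 g τ hτ.1 (hv a) (fun i => 2 * w i + ((hv b i : ℝ) : ℂ)) (fun j => 2 * P j)).2.1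
  rw [e3]
  have e4 : Complex.exp (2 * Real.pi * Complex.I *
      ∑ i, ((hv a i : ℝ) : ℂ) * (((2 * P i : ℤ) : ℂ))) = 1 := by
    have e5 : ∑ i, ((hv a i : ℝ) : ℂ) * (((2 * P i : ℤ) : ℂ)) =
        ((∑ i, ((a i).val : ℤ) * P i : ℤ) : ℂ) := by
      rw [Int.cast_sum]
      refine Finset.sum_congr rfl fun i _ => ?_
      unfold hv
      push_cast
      ring
    rw [e5]
    exact exp_int _
  rw [e4, one_mul]
  have e6 : Complex.exp (-(Real.pi * Complex.I * ∑ i, ∑ j, (((2 * Q i : ℤ) : ℂ)) * τ i j *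
      (((2 * Q j : ℤ) : ℂ))) - 2 * Real.pi * Complex.I * ∑ i, (((2 * Q i : ℤ) : ℂ)) *
        ((2 * w i + ((hv b i : ℝ) : ℂ)) + (((2 * P i : ℤ) : ℂ)))) =
      Complex.exp (-(Real.pi * Complex.I * ∑ i, ∑ j, (((2 * Q i : ℤ) : ℂ)) * τ i j *
        (((2 * Q j : ℤ) : ℂ))) - 2 * Real.pi * Complex.I *
          ∑ i, (((2 * Q i : ℤ) : ℂ)) * (2 * w i)) := by
    have e7 : ∑ i, (((2 * Q i : ℤ) : ℂ)) *
        ((2 * w i + ((hv b i : ℝ) : ℂ)) + (((2 * P i : ℤ) : ℂ))) =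
        ∑ i, (((2 * Q i : ℤ) : ℂ)) * (2 * w i) -
          ((-(∑ i, (((b i).val : ℤ) * Q i + 4 * (Q i * P i))) : ℤ) : ℂ) := by
      rw [Int.cast_neg, Int.cast_sum, sub_neg_eq_add, ← Finset.sum_add_distrib]
      refine Finset.sum_congr rfl fun i _ => ?_
      unfold hv
      push_cast
      ring
    rw [e7]
    obtain ⟨m, hm⟩ : ∃ m : ℤ, m = -(∑ i, (((b i).val : ℤ) * Q i + 4 * (Q i * P i))) :=
      ⟨_, rfl⟩
    rw [← hm, mul_sub, sub_sub_eq_add_sub, add_sub_right_comm, Complex.exp_add, exp_int, mul_one]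
  rw [e6]

theorem xpr (h1 : TpeStatement) : XprStmt := by
  intro g K _ φ τ hτ z l hl x hx hμ k p q P Q
  have hlC : (l : ℂ) ≠ 0 := by exact_mod_cast hl.ne'
  obtain ⟨E, hE, hper⟩ := vab_per h1 hτ (gam τ z l (k, p, q)) P Q
  have hgam : gam τ z l (k, fun i => p i + (l : ℤ) * P i, fun i => q i + (l : ℤ) * Q i) =
      fun i => gam τ z l (k, p, q) i + ((P i : ℂ) + ∑ j, τ i j * (Q j : ℂ)) := by
    funext r
    unfold gam
    simp only
    have e1 : ∑ j, τ r j * (((q j + (l : ℤ) * Q j : ℤ)) : ℂ) =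
        ∑ j, τ r j * (q j : ℂ) + (l : ℂ) * ∑ j, τ r j * (Q j : ℂ) := by
      rw [Finset.mul_sum, ← Finset.sum_add_distrib]
      refine Finset.sum_congr rfl fun j _ => ?_
      push_cast
      ring
    rw [e1]
    push_cast
    field_simp
    ring
  obtain ⟨μ1, hμ1⟩ := hμ (k, p, q)
  obtain ⟨μ2, hμ2⟩ := hμ (k, fun i => p i + (l : ℤ) * P i, fun i => q i + (l : ℤ) * Q i)
  rw [hgam] at hμ2
  obtain ⟨ab0, hab0⟩ : ∃ ab0, x (k, p, q) ab0 ≠ 0 := by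
    by_contra hcon
    push Not at hcon
    exact hx _ (funext hcon)
  have key : ∀ ab, x (k, fun i => p i + (l : ℤ) * P i, fun i => q i + (l : ℤ) * Q i) ab =
      x (k, fun i => p i + (l : ℤ) * P i, fun i => q i + (l : ℤ) * Q i) ab0 / x (k, p, q) ab0 *
        x (k, p, q) ab := by
    intro ab
    rw [div_mul_eq_mul_div, eq_div_iff hab0]
    apply φ.injective
    rw [map_mul, map_mul, hμ1, hμ1, hμ2, hμ2, hper, hper]
    ring
  refine ⟨_, ?_, key⟩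
  intro h0
  refine hx (k, fun i => p i + (l : ℤ) * P i, fun i => q i + (l : ℤ) * Q i) (funext fun ab => ?_)
  rw [key ab, h0, zero_mul]
  rfl

end Pool.Agent.SZG.H92
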