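import Pool.Agent.SZG.StmtsF

/-!
SZG, row THG: theta functions give the data of the algebraic blocks.
-/

set_option autoImplicit false

namespace Pool.Agent.SZG.H92

open scoped BigOperators
open Pool.Agent.THS Pool.Agent.SZG

section gamma

variable {g : ℕ} (τ : Matrix (Fin g) (Fin g) ℂ) (z : Fin g → ℂ) (l : ℕ)

theorem gam_add (i j : Idx g) : gam τ z l (i + j) = fun r => gam τ z l i r + gam τ z l j r := by
  funext r
  unfold gam
  simp only [Prod.fst_add, Prod.snd_add, Pi.add_apply, Int.cast_add, mul_add, add_mul,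
    Finset.sum_add_distrib]
  ring

theorem gam_neg (i : Idx g) : gam τ z l (-i) = fun r => - gam τ z l i r := by
  funext r
  unfold gam
  simp only [Prod.fst_neg, Prod.snd_neg, Pi.neg_apply, Int.cast_neg, mul_neg, neg_mul,
    Finset.sum_neg_distrib]
  ring

theorem gam_zero : gam τ z l 0 = fun _ => 0 := by
  funext r
  unfold gam
  simp

theorem gam_nsmul (n : ℕ) (i : Idx g) : gam τ z l (n • i) = fun r => (n : ℂ) * gam τ z l i r := by
  induction n with
  | zero => rw [zero_smul, gam_zero]; funext r; simp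
  | succ n ih =>
    rw [succ_nsmul, gam_add, ih]
    funext r
    push_cast
    ring

/-- The group of the periods. -/
def L0 : AddSubgroup (Idx g) where
  carrier := {m | InLat τ (fun r => 2 * gam τ z l m r)}
  add_mem' := by
    rintro a b ⟨p, q, h⟩ ⟨p', q', h'⟩
    refine ⟨fun i => p i + p' i, fun i => q i + q' i, fun r => ?_⟩
    rw [gam_add]
    simp only
    have e1 : 2 * gam τ z l a r = (p r : ℂ) + ∑ j, τ r j * (q j : ℂ) := h r
    have e2 : 2 * gam τ z l b r = (p' r : ℂ) + ∑ j, τ r j * (q' j : ℂ) := h' r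
    rw [mul_add, e1, e2]
    simp only [Int.cast_add, mul_add, Finset.sum_add_distrib]
    ring
  zero_mem' := by
    refine ⟨fun _ => 0, fun _ => 0, fun r => ?_⟩
    rw [gam_zero]
    simp
  neg_mem' := by
    rintro a ⟨p, q, h⟩
    refine ⟨fun i => - p i, fun i => - q i, fun r => ?_⟩
    rw [gam_neg]
    simp only
    have e1 : 2 * gam τ z l a r = (p r : ℂ) + ∑ j, τ r j * (q j : ℂ) := h r
    rw [mul_neg, e1]
    simp only [Int.cast_neg, mul_neg, Finset.sum_neg_distrib]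
    ring

theorem mem_L0 {m : Idx g} : m ∈ L0 τ z l ↔ InLat τ (fun r => 2 * gam τ z l m r) := Iff.rfl

end gamma

theorem thg (tou : TouStatement) (scg : ScgStmt) : ThgStmt := by
  intro g K _ φ τ hτ z l hl hN x hx0 hμ'
  obtain ⟨rr, -, par, perd, ncz, -⟩ := tou g τ hτ
  choose μ hμ using hμ'
  have hφ : Function.Injective φ := φ.injective
  have hlC : (l : ℂ) ≠ 0 := by exact_mod_cast hl.ne'
  have hμ0 : ∀ k, μ k ≠ 0 := by
    intro k hk
    refine hx0 k (funext fun ab => hφ ?_)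
    rw [hμ k ab, hk, zero_mul, Pi.zero_apply, map_zero]
  obtain ⟨θ, hθ⟩ : ∃ θ : Idx g → Ch g → ℂ, ∀ k c, θ k c = Thc τ c (gam τ z l k) :=
    ⟨_, fun _ _ => rfl⟩
  obtain ⟨V, hV⟩ : ∃ V : Idx g → Ch g × Ch g → ℂ, ∀ k ab, V k ab =
      Vab τ ab.1 ab.2 (gam τ z l k) := ⟨_, fun _ _ => rfl⟩
  have hθne : ∀ k, ∃ c, θ k c ≠ 0 := by
    intro k
    obtain ⟨c, hc⟩ := ncz (gam τ z l k)
    exact ⟨c, by rw [hθ]; exact hc⟩
  have hθev : ∀ k c, θ (-k) c = θ k c := by
    intro k c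
    rw [hθ, hθ, gam_neg, par]
  have hVV : ∀ a b i j, V i (a, b) * V j (a, b) = RG θ a b i j := by
    intro a b i j
    have h1 := rr a b (gam τ z l i) (gam τ z l j)
    have h2 : gam τ z l (i + j) = fun r => gam τ z l i r + gam τ z l j r := gam_add τ z l i j
    have h3 : gam τ z l (i - j) = fun r => gam τ z l i r - gam τ z l j r := by
      rw [sub_eq_add_neg, gam_add, gam_neg]
      funext r
      ring
    unfold RG
    simp only [hV, hθ, h2, h3]
    exact h1
  obtain ⟨l0, B, T, s, κ, hl0, hs, hκ, hBs, hBa, hT, hRG⟩ := scg g K (Idx g) φ θ V x μ hθne hθev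
    hVV (fun k ab => by rw [hμ, hV]) hμ0
  -- the bilinear form
  have hBa2 : ∀ i j k, B i (j + k) = B i j + B i k := by
    intro i j k
    rw [hBs i (j + k), hBa, hBs j i, hBs k i]
  have hB0 : ∀ k, B 0 k = 0 := by
    intro k
    have h1 := hBa 0 0 k
    rw [add_zero] at h1
    have h2 : B 0 k + 0 = B 0 k + B 0 k := by rw [add_zero]; exact h1
    exact (add_left_cancel h2).symm
  have hBneg : ∀ i k, B (-i) k = - B i k := by
    intro i k
    have h1 := hBa i (-i) k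
    rw [add_neg_cancel, hB0] at h1
    exact eq_neg_of_add_eq_zero_right h1.symm
  have hBn : ∀ (n : ℕ) i k, B (n • i) k = n * B i k := by
    intro n i k
    induction n with
    | zero => rw [zero_smul, hB0]; simp
    | succ n ih => rw [succ_nsmul, hBa, ih]; push_cast; ring
  have hBn2 : ∀ (n : ℕ) i k, B i (n • k) = n * B i k := by
    intro n i k
    rw [hBs, hBn, hBs]
  have hBsq : ∀ i j, B (i + j) (i + j) = B i i + 2 * B j i + B j j := by
    intro i j
    rw [hBa, hBa2, hBa2, hBs i j]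
    ring
  have hθ2 : ∀ i c, θ (i + i) c = Thc τ c (fun r => 2 * gam τ z l i r) := by
    intro i c
    rw [hθ, gam_add]
    congr 1
    funext r
    ring
  have hT0 : ∀ k, ∃ c, T k c ≠ 0 := by
    intro k
    obtain ⟨c, hc⟩ := hθne (k + k)
    refine ⟨c, fun h => ?_⟩
    have h1 := hT k c
    rw [h, map_zero] at h1
    exact mul_ne_zero (mul_ne_zero hl0 (Complex.exp_ne_zero _)) hc h1.symm
  -- periods
  obtain ⟨Cf, hCf⟩ : ∃ Cf : Idx g → (Fin g → ℤ) → ℂ, ∀ m Q, Cf m Q = Complex.exp (B m m -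
      2 * Real.pi * Complex.I * ∑ i, ∑ j, (Q i : ℂ) * τ i j * (Q j : ℂ)) := ⟨_, fun _ _ => rfl⟩
  obtain ⟨Ef, hEf⟩ : ∃ Ef : Idx g → (Fin g → ℤ) → Idx g → ℂ, ∀ m Q i, Ef m Q i =
      Complex.exp (2 * B m i - 8 * Real.pi * Complex.I * ∑ r, (Q r : ℂ) * gam τ z l i r) :=
    ⟨_, fun _ _ _ => rfl⟩
  have hper : ∀ (m : Idx g) (P Q : Fin g → ℤ),
      (∀ r, 2 * gam τ z l m r = (P r : ℂ) + ∑ j, τ r j * (Q j : ℂ)) → ∀ i c,
      φ (T (i + m) c) = Cf m Q * Ef m Q i * φ (T i c) := by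
    intro m P Q hPQ i c
    have h1 := perd c (fun r => 2 * gam τ z l i r) P Q
    have h2 : (fun r => 2 * gam τ z l (i + m) r) =
        fun r => 2 * gam τ z l i r + ((P r : ℂ) + ∑ j, τ r j * (Q j : ℂ)) := by
      funext r
      rw [← hPQ r, gam_add]
      ring
    rw [hT, hT, hθ2, hθ2, h2, h1, hBsq, hCf, hEf]
    have h3 : ∑ r, (Q r : ℂ) * (2 * gam τ z l i r) = 2 * ∑ r, (Q r : ℂ) * gam τ z l i r := by
      rw [Finset.mul_sum]
      refine Finset.sum_congr rfl fun r _ => ?_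
      ring
    rw [h3]
    have h4 : Complex.exp (B i i + 2 * B m i + B m m) *
        Complex.exp (-(2 * Real.pi * Complex.I * ∑ i, ∑ j, (Q i : ℂ) * τ i j * (Q j : ℂ)) -
          4 * Real.pi * Complex.I * (2 * ∑ r, (Q r : ℂ) * gam τ z l i r)) =
        Complex.exp (B m m - 2 * Real.pi * Complex.I *
          ∑ i, ∑ j, (Q i : ℂ) * τ i j * (Q j : ℂ)) *
        Complex.exp (2 * B m i - 8 * Real.pi * Complex.I * ∑ r, (Q r : ℂ) * gam τ z l i r) *
        Complex.exp (B i i) := by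
      rw [← Complex.exp_add, ← Complex.exp_add, ← Complex.exp_add]
      congr 1
      ring
    linear_combination (l0 * Thc τ c (fun r => 2 * gam τ z l i r)) * h4
  have hC0 : ∀ m Q, Cf m Q ≠ 0 := fun m Q => by rw [hCf]; exact Complex.exp_ne_zero _
  have hE0 : ∀ m Q i, Ef m Q i ≠ 0 := fun m Q i => by rw [hEf]; exact Complex.exp_ne_zero _
  have hEz : ∀ m Q, Ef m Q 0 = 1 := by
    intro m Q
    rw [hEf, hBs, hB0, gam_zero]
    simp
  have hCr : ∀ (m : Idx g) (P Q : Fin g → ℤ),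
      (∀ r, 2 * gam τ z l m r = (P r : ℂ) + ∑ j, τ r j * (Q j : ℂ)) →
      ∀ c, T 0 c ≠ 0 → Cf m Q = φ (T m c / T 0 c) := by
    intro m P Q hPQ c hc
    have h1 := hper m P Q hPQ 0 c
    rw [zero_add, hEz, mul_one] at h1
    rw [map_div₀, h1]
    have : φ (T 0 c) ≠ 0 := fun h => hc (hφ (by rw [h, map_zero]))
    field_simp
  have hEr : ∀ (m : Idx g) (P Q : Fin g → ℤ),
      (∀ r, 2 * gam τ z l m r = (P r : ℂ) + ∑ j, τ r j * (Q j : ℂ)) →
      ∀ c, T 0 c ≠ 0 → ∀ i c', T i c' ≠ 0 →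
      Ef m Q i = φ (T (i + m) c' / T i c' / (T m c / T 0 c)) := by
    intro m P Q hPQ c hc i c' hc'
    have h1 := hper m P Q hPQ i c'
    have h2 := hCr m P Q hPQ c hc
    rw [map_div₀, ← h2, map_div₀, h1]
    have h3 : φ (T i c') ≠ 0 := fun h => hc' (hφ (by rw [h, map_zero]))
    have h4 := hC0 m Q
    field_simp
  obtain ⟨c0, hc0⟩ := hT0 0
  choose cc hcc using hT0
  obtain ⟨c, hc⟩ : ∃ c : Idx g → K, ∀ m, c m = T m c0 / T 0 c0 := ⟨_, fun _ => rfl⟩
  obtain ⟨e, he⟩ : ∃ e : Idx g → Idx g → K, ∀ m i, e m i =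
      T (i + m) (cc i) / T i (cc i) / (T m c0 / T 0 c0) := ⟨_, fun _ _ => rfl⟩
  have hcφ : ∀ (m : Idx g) (P Q : Fin g → ℤ),
      (∀ r, 2 * gam τ z l m r = (P r : ℂ) + ∑ j, τ r j * (Q j : ℂ)) → φ (c m) = Cf m Q := by
    intro m P Q hPQ
    rw [hc, hCr m P Q hPQ c0 hc0]
  have heφ : ∀ (m : Idx g) (P Q : Fin g → ℤ),
      (∀ r, 2 * gam τ z l m r = (P r : ℂ) + ∑ j, τ r j * (Q j : ℂ)) → ∀ i,
      φ (e m i) = Ef m Q i := by
    intro m P Q hPQ i
    rw [he, hEr m P Q hPQ c0 hc0 i (cc i) (hcc i)]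
  have ne_of_map : ∀ {y : K}, φ y ≠ 0 → y ≠ 0 := by
    intro y hy h
    exact hy (by rw [h, map_zero])
  obtain ⟨N, hN0, pz, qz, hpq⟩ := hN
  have hgam : ∀ i : Idx g, ∀ r, (l : ℂ) * gam τ z l i r =
      (l : ℂ) * (i.1 : ℂ) * z r + ((i.2.1 r : ℂ) + ∑ j, τ r j * (i.2.2 j : ℂ)) := by
    intro i r
    unfold gam
    field_simp
  refine ⟨N * l, L0 τ z l, c, e, s, T, fun i ab => κ i * x (i + i) ab, ?_, ?_, ?_, ?_⟩
  · refine
      { hE := Nat.mul_pos hN0 hl
        mem := ?_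
        s0 := hs
        T0 := fun i h => hcc i (by rw [h]; rfl)
        x0 := ?_
        even := ?_
        rie := hRG
        cne := ?_
        ene := ?_
        per := ?_
        eadd := ?_ }
    · intro i
      rw [mem_L0]
      refine ⟨fun r => 2 * (l * i.1 * pz r + N * i.2.1 r), fun r => 2 * (l * i.1 * qz r + N * i.2.2 r),
        fun r => ?_⟩
      rw [gam_nsmul]
      simp only
      have h1 : (2 : ℂ) * (((N * l : ℕ) : ℂ) * gam τ z l i r) =
          2 * ((l : ℂ) * (i.1 : ℂ) * ((N : ℂ) * z r) +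
            (N : ℂ) * ((i.2.1 r : ℂ) + ∑ j, τ r j * (i.2.2 j : ℂ))) := by
        have h2 := hgam i r
        push_cast
        linear_combination (2 * (N : ℂ)) * h2
      have h0 : (N : ℂ) * z r = (pz r : ℂ) + ∑ j, τ r j * (qz j : ℂ) := hpq r
      rw [h1, h0]
      push_cast
      have h3 : ∑ j, τ r j * (2 * ((l : ℂ) * (i.1 : ℂ) * (qz j : ℂ) + (N : ℂ) * (i.2.2 j : ℂ))) =
          2 * ((l : ℂ) * (i.1 : ℂ) * ∑ j, τ r j * (qz j : ℂ) +
            (N : ℂ) * ∑ j, τ r j * (i.2.2 j : ℂ)) := by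
        rw [Finset.mul_sum, Finset.mul_sum, ← Finset.sum_add_distrib, Finset.mul_sum]
        refine Finset.sum_congr rfl fun j _ => ?_
        ring
      rw [h3]
      ring
    · intro i h
      refine hx0 (i + i) (funext fun ab => ?_)
      have h1 := congrFun h ab
      simp only [Pi.zero_apply] at h1 ⊢
      exact (mul_eq_zero.1 h1).resolve_left (hκ i)
    · intro i a
      refine hφ ?_
      rw [hT, hT]
      have h1 : B (-i) (-i) = B i i := by rw [hBneg, hBs, hBneg]; ring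
      have h2 : -i + -i = -(i + i) := by abel
      rw [h1, h2, hθev]
    · rintro m ⟨P, Q, hPQ⟩
      apply ne_of_map
      rw [hcφ m P Q hPQ]
      exact hC0 m Q
    · rintro m ⟨P, Q, hPQ⟩ i
      apply ne_of_map
      rw [heφ m P Q hPQ]
      exact hE0 m Q i
    · rintro m ⟨P, Q, hPQ⟩ i a
      refine hφ ?_
      rw [map_mul, map_mul, hcφ m P Q hPQ, heφ m P Q hPQ]
      exact hper m P Q hPQ i a
    · rintro m ⟨P, Q, hPQ⟩ i j
      refine hφ ?_
      rw [map_mul, heφ m P Q hPQ, heφ m P Q hPQ, heφ m P Q hPQ, hEf, hEf, hEf, ← Complex.exp_add,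
        hBa2, gam_add]
      congr 1
      simp only [mul_add, Finset.sum_add_distrib]
      ring
  · intro P Q
    rw [mem_L0]
    refine ⟨fun r => 2 * P r, fun r => 2 * Q r, fun r => ?_⟩
    unfold gam
    simp only [Int.cast_zero, zero_mul, zero_add]
    push_cast
    have h1 : ∑ j, τ r j * ((l : ℂ) * (Q j : ℂ)) = (l : ℂ) * ∑ j, τ r j * (Q j : ℂ) := by
      rw [Finset.mul_sum]
      refine Finset.sum_congr rfl fun j _ => ?_
      ring
    have h2 : ∑ j, τ r j * (2 * (Q j : ℂ)) = 2 * ∑ j, τ r j * (Q j : ℂ) := by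
      rw [Finset.mul_sum]
      refine Finset.sum_congr rfl fun j _ => ?_
      ring
    rw [h1, h2]
    field_simp
  · intro i
    exact ⟨κ i, hκ i, fun ab => rfl⟩
  · refine ⟨fun k => l0 * Complex.exp ((l : ℂ) ^ 2 * (k : ℂ) ^ 2 * B (Zz g) (Zz g)),
      fun p q => Complex.exp (B ((0, p, q) : Idx g) ((0, p, q) : Idx g)),
      fun k => mul_ne_zero hl0 (Complex.exp_ne_zero _), fun p q => Complex.exp_ne_zero _, ?_⟩
    intro p q k a
    obtain ⟨b, hb⟩ : ∃ b : Idx g, b = ((0, p, q) : Idx g) := ⟨_, rfl⟩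
    rw [← hb]
    have hgZ : gam τ z l (Zz g) = z := by
      funext r
      unfold gam Zz
      simp
    have hgb : ∀ r, gam τ z l b r = ((p r : ℂ) + ∑ j, τ r j * (q j : ℂ)) / (l : ℂ) := by
      intro r
      rw [hb]
      unfold gam
      simp
    have hlb : ∀ r, 2 * gam τ z l (l • b) r =
        (((2 * p r : ℤ)) : ℂ) + ∑ j, τ r j * (((2 * q j : ℤ)) : ℂ) := by
      intro r
      rw [gam_nsmul]
      simp only
      rw [hgb]
      push_cast
      have h2 : ∑ j, τ r j * (2 * (q j : ℂ)) = 2 * ∑ j, τ r j * (q j : ℂ) := by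
        rw [Finset.mul_sum]
        refine Finset.sum_congr rfl fun j _ => ?_
        ring
      rw [h2]
      field_simp
    have he1 : φ (e (l • b) (Zz g)) =
        Complex.exp (2 * ((l : ℂ) * B b (Zz g)) - 16 * Real.pi * Complex.I * ∑ r, (q r : ℂ) * z r) := by
      rw [heφ (l • b) (fun r => 2 * p r) (fun r => 2 * q r) hlb, hEf, hBn, hgZ]
      congr 2
      push_cast
      have h2 : ∑ r, 2 * (q r : ℂ) * z r = 2 * ∑ r, (q r : ℂ) * z r := by
        rw [Finset.mul_sum]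
        refine Finset.sum_congr rfl fun j _ => ?_
        ring
      rw [h2]
      ring
    unfold Mp
    rw [map_mul, map_pow, map_inv₀, he1, hT, hθ2, hBsq, hBn, hBn2, hBn2]
    have hg2 : (fun r => 2 * gam τ z l ((l * k) • Zz g + b) r) =
        fun r => 2 * (l : ℂ) * ((k : ℂ) * z r) +
          2 * ((p r : ℂ) + ∑ j, τ r j * (q j : ℂ)) / (l : ℂ) := by
      funext r
      rw [gam_add, gam_nsmul, hgZ]
      simp only
      rw [hgb]
      push_cast
      ring
    rw [hg2]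
    unfold FF
    have hex : (Complex.exp (2 * ((l : ℂ) * B b (Zz g)) -
          16 * Real.pi * Complex.I * ∑ r, (q r : ℂ) * z r))⁻¹ ^ k *
        Complex.exp (((l * k : ℕ) : ℂ) * (((l * k : ℕ) : ℂ) * B (Zz g) (Zz g)) +
          2 * (((l * k : ℕ) : ℂ) * B b (Zz g)) + B b b) =
        Complex.exp ((l : ℂ) ^ 2 * (k : ℂ) ^ 2 * B (Zz g) (Zz g)) * Complex.exp (B b b) *
        Complex.exp (16 * Real.pi * Complex.I * ∑ i, (q i : ℂ) * ((k : ℂ) * z i)) := by
      rw [← Complex.exp_neg, ← Complex.exp_nat_mul, ← Complex.exp_add, ← Complex.exp_add,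
        ← Complex.exp_add]
      congr 1
      have h2 : ∑ i, (q i : ℂ) * ((k : ℂ) * z i) = (k : ℂ) * ∑ r, (q r : ℂ) * z r := by
        rw [Finset.mul_sum]
        refine Finset.sum_congr rfl fun j _ => ?_
        ring
      rw [h2]
      push_cast
      ring
    subst hb
    linear_combination (l0 * Thc τ a (fun r => 2 * (l : ℂ) * ((k : ℂ) * z r) +
          2 * ((p r : ℂ) + ∑ j, τ r j * (q j : ℂ)) / (l : ℂ))) * hex

end Pool.Agent.SZG.H92
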