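import Pool.Agent.SZG.StmtsF

/-!
SZG, row PLG: the parallelogram law in a group with torsion.
-/

set_option autoImplicit false

namespace Pool.Agent.SZG.H92

open Pool.Agent.SZG

theorem plg : PlgStmt := by
  intro I G _ _ h h0 hp
  have hneg : ∀ i, h (-i) = h i := by
    intro i
    have h1 := hp 0 i
    rw [zero_add, zero_sub, h0, smul_zero, zero_add, two_smul] at h1
    exact add_left_cancel h1
  refine ⟨hneg, fun i j k => ?_⟩
  have A := hp (i + j) k
  have B := hp i (k - j)
  have C := hp (i + k) j
  have D := hp k j
  have e1 : i + (k - j) = i + k - j := by abel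
  have e2 : i - (k - j) = i + j - k := by abel
  have e3 : i + k + j = i + j + k := by abel
  have e4 : k + j = j + k := add_comm k j
  rw [e1, e2] at B
  rw [e3] at C
  rw [e4] at D
  have key : (2 • h (i + j + k) + 2 • h i + 2 • h j + 2 • h k) -
      (2 • h (i + j) + 2 • h (i + k) + 2 • h (j + k)) =
      ((h (i + j + k) + h (i + j - k)) - (2 • h (i + j) + 2 • h k)) -
      ((h (i + k - j) + h (i + j - k)) - (2 • h i + 2 • h (k - j))) +
      ((h (i + j + k) + h (i + k - j)) - (2 • h (i + k) + 2 • h j)) -
      2 • ((h (j + k) + h (k - j)) - (2 • h k + 2 • h j)) := by abel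
  simp only [A, B, C, D, sub_self, smul_zero, sub_zero, add_zero] at key
  exact sub_eq_zero.1 key

end Pool.Agent.SZG.H92
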