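import Pool.Agent.SZG.StmtsW

/-!
SZG, row QSA: algebra of the factors of automorphy.
-/

set_option autoImplicit false

namespace Pool.Agent.SZG.H92

open scoped BigOperators
open Pool.Agent.THS Pool.Agent.SZG

/-- A map of a group to the units of a field which is multiplicative is compatible with integral
multiples. -/
theorem zsmul_pow {K G : Type} [Field K] [AddCommGroup G] (f : G → K) (h0 : ∀ i, f i ≠ 0)
    (hadd : ∀ i j, f (i + j) = f i * f j) (u : ℤ) (i : G) : f (u • i) = f i ^ u := by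
  let ψ : G →+ Additive Kˣ := AddMonoidHom.mk' (fun i => Additive.ofMul (Units.mk0 (f i) (h0 i)))
    (by
      intro a b
      rw [← ofMul_mul]
      congr 1
      ext
      simp [hadd])
  have h1 := map_zsmul ψ u i
  have h2 : (Units.mk0 (f (u • i)) (h0 _) : Kˣ) = (Units.mk0 (f i) (h0 i)) ^ u :=
    Additive.ofMul.injective h1
  have h3 := congrArg (fun x : Kˣ => (x : K)) h2
  simpa using h3

theorem qsa : QsaStmt := by
  intro K I _ _ g E L0 c e s T x h m hm n hn
  have hz : ∀ k ∈ L0, e k 0 = 1 := by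
    intro k hk
    have h1 := h.eadd k hk 0 0
    rw [add_zero] at h1
    have h2 := h.ene k hk 0
    have h3 : e k 0 * 1 = e k 0 * e k 0 := by rw [mul_one]; exact h1
    exact (mul_left_cancel₀ h2 h3).symm
  have hTne : ∀ i, ∃ a, T i a ≠ 0 := fun i => Function.ne_iff.1 (h.T0 i)
  have h00 : ∀ i, c 0 * e 0 i = 1 := by
    intro i
    obtain ⟨a, ha⟩ := hTne i
    have h1 := h.per 0 L0.zero_mem i a
    rw [add_zero] at h1
    have h2 : 1 * T i a = (c 0 * e 0 i) * T i a := by rw [one_mul]; exact h1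
    exact (mul_right_cancel₀ ha h2).symm
  have hc0 : c 0 = 1 := by
    have h1 := h00 0
    rwa [hz 0 L0.zero_mem, mul_one] at h1
  have he0 : ∀ i, e 0 i = 1 := by
    intro i
    have h1 := h00 i
    rwa [hc0, one_mul] at h1
  -- addition in the first variable
  have key : ∀ a ∈ L0, ∀ b ∈ L0, ∀ i, c (a + b) * e (a + b) i =
      c a * c b * e b a * (e a i * e b i) := by
    intro a ha b hb i
    obtain ⟨q, hq⟩ := hTne i
    have h1 := h.per (a + b) (L0.add_mem ha hb) i q
    have h2 := h.per b hb (i + a) q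
    rw [h.per a ha i q, h.eadd b hb i a, add_assoc, h1] at h2
    apply mul_right_cancel₀ hq
    rw [h2]; ring
  have hcadd : ∀ a ∈ L0, ∀ b ∈ L0, c (a + b) = c a * c b * e b a := by
    intro a ha b hb
    have h1 := key a ha b hb 0
    rw [hz _ (L0.add_mem ha hb), hz a ha, hz b hb, mul_one, mul_one, mul_one] at h1
    exact h1
  have headd : ∀ a ∈ L0, ∀ b ∈ L0, ∀ i, e (a + b) i = e a i * e b i := by
    intro a ha b hb i
    have h1 := key a ha b hb i
    rw [← hcadd a ha b hb] at h1
    exact mul_left_cancel₀ (h.cne _ (L0.add_mem ha hb)) h1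
  have hsymm : ∀ a ∈ L0, ∀ b ∈ L0, e a b = e b a := by
    intro a ha b hb
    have h1 := hcadd a ha b hb
    have h2 := hcadd b hb a ha
    rw [add_comm b a, h1, mul_comm (c b) (c a)] at h2
    exact (mul_left_cancel₀ (mul_ne_zero (h.cne a ha) (h.cne b hb)) h2).symm
  have hnegc : ∀ a ∈ L0, c (-a) = c a := by
    intro a ha
    obtain ⟨q, hq⟩ := hTne 0
    have h1 := h.per (-a) (L0.neg_mem ha) 0 q
    have h2 := h.per a ha 0 q
    rw [hz _ (L0.neg_mem ha), mul_one, zero_add, h.even] at h1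
    rw [hz _ ha, mul_one, zero_add] at h2
    rw [h2] at h1
    exact (mul_right_cancel₀ hq h1).symm
  have hp1 : ∀ a ∈ L0, ∀ (u : ℤ) (i : I), e a (u • i) = e a i ^ u := by
    intro a ha u i
    exact zsmul_pow (fun i => e a i) (h.ene a ha) (h.eadd a ha) u i
  have hp2 : ∀ a ∈ L0, ∀ (u : ℤ) (i : I), e (u • a) i = e a i ^ u := by
    intro a ha u i
    exact zsmul_pow (fun a : L0 => e (a : I) i) (fun a => h.ene a a.2 i)
      (fun a b => headd a a.2 b b.2 i) u ⟨a, ha⟩
  have hneg1 : ∀ a ∈ L0, ∀ i, e a (-i) = (e a i)⁻¹ := by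
    intro a ha i
    have := hp1 a ha (-1) i
    rwa [neg_one_zsmul, zpow_neg_one] at this
  have hneg2 : ∀ a ∈ L0, ∀ i, e (-a) i = (e a i)⁻¹ := by
    intro a ha i
    have := hp2 a ha (-1) i
    rwa [neg_one_zsmul, zpow_neg_one] at this
  refine ⟨hc0, hnegc m hm, ?_, ?_, hsymm m hm n hn, headd m hm n hn, hneg2 m hm, hp2 m hm,
    hp1 m hm⟩
  · have h1 := hcadd m hm (-m) (L0.neg_mem hm)
    rw [add_neg_cancel, hc0, hnegc m hm, hneg2 m hm] at h1
    have h2 := h.ene m hm m
    field_simp at h1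
    rw [pow_two]
    have h3 : e m m = c m * c m := by
      rw [← pow_two]
      exact h1
    exact h3.symm
  · rw [hcadd m hm n hn, hsymm m hm n hn]

end Pool.Agent.SZG.H92
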